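import Pool.Agent.Helper74.BS.St2

set_option autoImplicit false

/-! Project BS (helper74), MP_26f0da_lc: module AF2, the abstract theorem, exact set for non-constant rank. -/

namespace Pool.Agent.Helper81.BS

open Pool.Agent.Helper73.DC Pool.Agent.Helper74.BS

theorem dspace_mono {α : Type} {L : Set (List α)} {S S' : ℕ → ℕ} {C' : ℕ}
    (h : ∀ n, S n ≤ C' * S' n + C') (hL : L ∈ DSPACE (α := α) S) : L ∈ DSPACE (α := α) S' := by
  obtain ⟨M, C, hM⟩ := hL
  refine ⟨M, C * C' + C, fun w => ⟨(hM w).1, fun c hc t => ?_⟩⟩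
  refine ((hM w).2 c hc t).trans_le ?_
  show C * S w.length + C ≤ (C * C' + C) * S' w.length + (C * C' + C)
  have h1 := Nat.mul_le_mul_left C (h w.length)
  have h2 : C * (C' * S' w.length + C') = C * C' * S' w.length + C * C' := by ring
  have h3 : (C * C' + C) * S' w.length = C * C' * S' w.length + C * S' w.length := by ring
  rw [h3]
  omega

theorem TH_le (L c n : ℕ) :
    L * KK c n + 1 ≤ (3 * L + 1 + c) * Nat.log 2 n ^ (3 * L + 1 + c) + (3 * L + 1 + c) := by
  unfold KK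
  rcases Nat.eq_zero_or_pos (Nat.log 2 n) with h | h
  · rw [h]
    have h1 : 0 ^ c ≤ 1 := by
      rcases Nat.eq_zero_or_pos c with hc | hc
      · rw [hc, pow_zero]
      · rw [zero_pow hc.ne']
        exact Nat.zero_le _
    have h2 : L * (0 ^ c + 2) ≤ L * 3 := Nat.mul_le_mul_left _ (by omega)
    have h3 : 0 ≤ (3 * L + 1 + c) * 0 ^ (3 * L + 1 + c) := Nat.zero_le _
    omega
  · have h1 : Nat.log 2 n ^ c ≤ Nat.log 2 n ^ (3 * L + 1 + c) :=
      Nat.pow_le_pow_right h (by omega)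
    have h2 : L * Nat.log 2 n ^ c ≤ (3 * L + 1 + c) * Nat.log 2 n ^ (3 * L + 1 + c) :=
      Nat.mul_le_mul (by omega) h1
    have h3 : L * (Nat.log 2 n ^ c + 2) = L * Nat.log 2 n ^ c + 2 * L := by ring
    omega

theorem KK_pos (c n : ℕ) : 1 ≤ KK c n := by
  unfold KK
  omega

theorem hAF2 (hAB : StAB) (hAU2 : StAU2) (hCO : StCO) (hSO : StSO) (hVE : StVE) (_hL1 : StL1)
    (_hL2 : StL2) : Pool.Agent.Helper74.BS.StAF2 := by
  intro α _ cl lf tn rs c0 gd e c L hcl hrs hlf htn hc0 bcl brs blf bc0 hg0 hg1 hg2 hwd Rf d hRf hRd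
  have hMf : E2 (α := α) (fun w _ => Rf w.length + 2) := E2.add hRf (E2.const 2)
  have hIf : E2 (α := α) (fun w _ => Rf w.length + 1) := E2.add hRf (E2.const 1)
  obtain ⟨u1, u2, u3, u4, u5, e', b1, b2, b3, b4⟩ := hAU2 cl lf tn rs c0 e c d
    (fun n => Rf n + 2) (fun n => Rf n + 1) hcl hrs hlf htn hc0 hMf hIf hRd bcl brs blf bc0
  obtain ⟨v1, -, -, -, -, -, v7, -, v9⟩ := hVE
  have key := hAB
    {w | ∃ f, EvF (lf w) (cl w) (rs w) (tn w) (c0 w) 0 f ∧
      cn (KK c w.length) (Rf w.length + 1) f = 0}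
    {w | ∃ f, EvF (lf w) (cl w) (rs w) (tn w) (c0 w) 0 f ∧
      cn (KK c w.length) (Rf w.length + 1) f = 0}
    (fun w x => clA (VVf c (fun n => Rf n + 2) w.length) (cl w) (rs w) (tn w) x)
    (fun w x => lfA (VVf c (fun n => Rf n + 2) w.length) ((w.length + 2) ^ e) (lf w) x)
    (fun w x r => rsA (KK c w.length) (Rf w.length + 2) (VVf c (fun n => Rf n + 2) w.length)
      ((w.length + 2) ^ e) (rs w) (tn w) x r)
    (fun w => c0 w * VVf c (fun n => Rf n + 2) w.length)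
    (fun w r => r / VVf c (fun n => Rf n + 2) w.length = 0 ∧
      dg (KK c w.length + 1) (r % VVf c (fun n => Rf n + 2) w.length) (Rf w.length + 1) = 0)
    (fun n => Rf n + 1) e' (3 * L + 1 + c) u2 u3 u1 u4 u5 hIf b2 b3 b1 b4 ?_ ?_
  · obtain ⟨Lg, hLg, hs1, hs2⟩ := key
    rw [Set.Subset.antisymm hs1 hs2]
    refine dspace_mono (C' := 2) (fun n => ?_) hLg
    have h1 : (Rf n + 1 + 1) * Nat.log 2 (n + 2) ≤ 2 * ((Rf n + 1) * Nat.log 2 (n + 2)) := by
      rw [← mul_assoc]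
      exact Nat.mul_le_mul_right _ (by omega)
    exact h1.trans (Nat.le_add_right _ _)
  · rintro w ⟨f, hf, hcf⟩
    have hV : VVf c (fun n => Rf n + 2) w.length = (KK c w.length + 1) ^ (Rf w.length + 2) := rfl
    obtain ⟨c', hc', hev⟩ := hCO (lf w) (cl w) (tn w) (rs w) (gd w) (KK c w.length)
      (Rf w.length + 2) L ((w.length + 2) ^ e) (KK_pos _ _) (bcl w) (brs w) (blf w)
      (hg1 w) (hg2 w) (hwd w) (c0 w) 0 f hf (hg0 w) (bc0 w) (Rf w.length + 1) 0
      (Nat.pow_pos (Nat.succ_pos _))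
    rw [hcf] at hc'
    have hc0' : c' = 0 := by omega
    subst hc0'
    have hlt := v1 (KK c w.length) (Rf w.length + 2) f
    rw [zero_mul, zero_add, add_zero, (v7 _ _ _ hlt).2] at hev
    refine ⟨vec (KK c w.length) (Rf w.length + 2) f, L * KK c w.length + 1, TH_le L c _, ⟨?_, ?_⟩, ?_⟩
    · rw [hV]
      exact Nat.div_eq_of_lt hlt
    · rw [hV, Nat.mod_eq_of_lt hlt, v9 _ _ _ _ (by omega), hcf]
      exact Nat.min_zero _
    · exact hev
  · rintro w r m n hev ⟨hg, hg'⟩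
    have hV : VVf c (fun n => Rf n + 2) w.length = (KK c w.length + 1) ^ (Rf w.length + 2) := rfl
    have hVpos : 0 < (KK c w.length + 1) ^ (Rf w.length + 2) := Nat.pow_pos (Nat.succ_pos _)
    obtain ⟨r', f, hf, -, hr⟩ := hSO (lf w) (cl w) (tn w) (rs w) (KK c w.length)
      (Rf w.length + 2) ((w.length + 2) ^ e) (KK_pos _ _) (bcl w) (brs w) (blf w)
      _ r m n hev (c0 w) 0 (bc0 w) hVpos (add_zero _).symm
    have hlt := v1 (KK c w.length) (Rf w.length + 2) f
    rw [(v7 _ _ _ hlt).2] at hr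
    have hr0 : r' = 0 := by
      by_contra hne
      have h1 : 1 ≤ r' := Nat.one_le_iff_ne_zero.2 hne
      have h2 : (KK c w.length + 1) ^ (Rf w.length + 2) ≤ r := by
        rw [hr]
        calc (KK c w.length + 1) ^ (Rf w.length + 2)
            = 1 * (KK c w.length + 1) ^ (Rf w.length + 2) := (one_mul _).symm
          _ ≤ r' * (KK c w.length + 1) ^ (Rf w.length + 2) := Nat.mul_le_mul_right _ h1
          _ ≤ _ := Nat.le_add_right _ _
      have h3 : 1 ≤ r / (KK c w.length + 1) ^ (Rf w.length + 2) :=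
        (Nat.one_le_div_iff hVpos).2 h2
      rw [hV] at hg
      omega
    rw [hr0, zero_mul, zero_add] at hr
    rw [hV, hr, Nat.mod_eq_of_lt hlt, v9 _ _ _ _ (by omega)] at hg'
    refine ⟨f, hr0 ▸ hf, ?_⟩
    have hK := KK_pos c w.length
    rcases Nat.min_eq_zero_iff.1 hg' with h | h
    · omega
    · exact h

end Pool.Agent.Helper81.BS

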